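import Pool.Agent.AEN.Stmts

/-! Squad AEN (MP_1906c1_mp), row DET (helper44). -/

set_option autoImplicit false

open MeasureTheory ProbabilityTheory Function Filter

open scoped ENNReal BigOperators InnerProductSpace Topology

noncomputable section

namespace Pool.Agent.AEN.H44

open Pool.Agent.Anderson Pool.Agent.Loc Pool.Agent.Helper54.Bal

variable {d : ℕ}

theorem tendsto_zn (E a : ℝ) :
    Tendsto (fun n : ℕ => (a : ℂ) - zn E n) atTop (𝓝 ((a : ℂ) - E)) := by
  have h1 : Tendsto (fun n : ℕ => ((et n : ℝ) : ℂ)) atTop (𝓝 ((0 : ℝ) : ℂ)) :=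
    (Complex.continuous_ofReal.tendsto 0).comp tendsto_et
  have h2 : Tendsto (fun n : ℕ => (a : ℂ) - ((E : ℂ) + ((et n : ℝ) : ℂ) * Complex.I)) atTop
      (𝓝 ((a : ℂ) - ((E : ℂ) + ((0 : ℝ) : ℂ) * Complex.I))) :=
    tendsto_const_nhds.sub (tendsto_const_nhds.add (h1.mul_const _))
  rw [Complex.ofReal_zero, zero_mul, add_zero] at h2
  refine h2.congr fun n => ?_
  rfl

theorem det (hc : ConStmt) : DetStmt := by
  intro d V E H
  classical
  by_contra hcon
  push Not at hcon
  obtain ⟨⟨a, ha⟩, ⟨b, hb⟩⟩ := hcon
  have h1 : ∃ (x' x₁ : Site d) (i : Fin d), ¬ Bd V E x' ∧ Bd V E x₁ ∧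
      (x₁ = x' + Pi.single i 1 ∨ x₁ = x' - Pi.single i 1) := by
    by_contra hno
    apply ha
    refine (hc d (Bd V E) (fun x i => ⟨fun hx => ?_, fun hx => ?_⟩) a b).2 hb
    · by_contra hn
      exact hno ⟨x + Pi.single i 1, x, i, hn, hx, Or.inr (by abel)⟩
    · by_contra hn
      exact hno ⟨x, x + Pi.single i 1, i, hn, hx, Or.inl rfl⟩
  obtain ⟨x', x₁, i₀, hx', hx₁, hxx⟩ := h1
  obtain ⟨f, hf⟩ : ∃ f : L2 d, f = ∑ i : Fin d,
      ((if Bd V E (x' + Pi.single i 1) then del (x' + Pi.single i 1) else 0) +
        (if Bd V E (x' - Pi.single i 1) then del (x' - Pi.single i 1) else 0)) := ⟨_, rfl⟩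
  have hg : ∀ n y, G V (zn E n) f y = ∑ i : Fin d,
      ((if Bd V E (x' + Pi.single i 1) then Gn V E n (x' + Pi.single i 1) y else 0) +
        (if Bd V E (x' - Pi.single i 1) then Gn V E n (x' - Pi.single i 1) y else 0)) := by
    intro n y
    rw [hf, map_sum, lp.coeFn_sum, Finset.sum_apply]
    refine Finset.sum_congr rfl fun i _ => ?_
    rw [map_add, lp.coeFn_add, Pi.add_apply]
    congr 1
    · split_ifs
      · rfl
      · rw [map_zero]
        rfl
    · split_ifs
      · rfl
      · rw [map_zero]
        rfl
  have hfx : f x₁ = ∑ i : Fin d,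
      ((if Bd V E (x' + Pi.single i 1) ∧ x₁ = x' + Pi.single i 1 then (1 : ℂ) else 0) +
        (if Bd V E (x' - Pi.single i 1) ∧ x₁ = x' - Pi.single i 1 then (1 : ℂ) else 0)) := by
    rw [hf, lp.coeFn_sum, Finset.sum_apply]
    refine Finset.sum_congr rfl fun i _ => ?_
    rw [lp.coeFn_add, Pi.add_apply]
    congr 1
    · by_cases h : Bd V E (x' + Pi.single i 1)
      · simp only [h, true_and, if_true]
        rw [del_apply]
      · simp only [h, false_and, if_false]
        rfl
    · by_cases h : Bd V E (x' - Pi.single i 1)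
      · simp only [h, true_and, if_true]
        rw [del_apply]
      · simp only [h, false_and, if_false]
        rfl
  -- the claim
  have hcl : ∀ y, Tendsto (fun n : ℕ => G V (zn E n) f y) atTop (𝓝 0) := by
    intro y
    by_cases hy : Bd V E y
    · have hyx : x' ≠ y := fun h => hx' (h ▸ hy)
      have e1 : ∀ n, G V (zn E n) f y = -(((V x' : ℂ) - zn E n) * Gn V E n y x') -
          ∑ i : Fin d,
            ((if Bd V E (x' + Pi.single i 1) then 0 else Gn V E n y (x' + Pi.single i 1)) +
            (if Bd V E (x' - Pi.single i 1) then 0 else Gn V E n y (x' - Pi.single i 1))) := by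
        intro n
        have h2 := G_eq (V := V) (zn_im_ne E n) (del y) x'
        rw [del_apply, if_neg hyx] at h2
        change lap (Gn V E n y) x' + ((V x' : ℂ) - zn E n) * Gn V E n y x' = 0 at h2
        rw [hg n y, eq_sub_iff_add_eq, ← Finset.sum_add_distrib]
        have h3 : lap (Gn V E n y) x' = -(((V x' : ℂ) - zn E n) * Gn V E n y x') := by
          linear_combination h2
        rw [← h3]
        unfold lap
        refine Finset.sum_congr rfl fun i _ => ?_
        have hs : ∀ x : Site d, Gn V E n x y = Gn V E n y x := fun x =>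
          QE.G_symm (zn_im_ne E n) y x
        rw [hs, hs]
        split_ifs <;> ring
      have t1 : Tendsto (fun n : ℕ => -(((V x' : ℂ) - zn E n) * Gn V E n y x')) atTop (𝓝 0) := by
        have := ((tendsto_zn E (V x')).mul (H y x' hy hx')).neg
        rwa [mul_zero, neg_zero] at this
      have t2 : Tendsto (fun n : ℕ => ∑ i : Fin d,
            ((if Bd V E (x' + Pi.single i 1) then 0 else Gn V E n y (x' + Pi.single i 1)) +
            (if Bd V E (x' - Pi.single i 1) then 0 else Gn V E n y (x' - Pi.single i 1))))
            atTop (𝓝 (∑ i : Fin d, (0 + 0))) := by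
        refine tendsto_finsetSum _ fun i _ => Tendsto.add ?_ ?_
        · by_cases h : Bd V E (x' + Pi.single i 1)
          · simp only [if_pos h]
            exact tendsto_const_nhds
          · simp only [if_neg h]
            exact H y _ hy h
        · by_cases h : Bd V E (x' - Pi.single i 1)
          · simp only [if_pos h]
            exact tendsto_const_nhds
          · simp only [if_neg h]
            exact H y _ hy h
      have t3 := t1.sub t2
      simp only [add_zero, Finset.sum_const_zero, sub_zero] at t3
      exact t3.congr fun n => (e1 n).symm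
    · have t2 : Tendsto (fun n : ℕ => ∑ i : Fin d,
            ((if Bd V E (x' + Pi.single i 1) then Gn V E n (x' + Pi.single i 1) y else 0) +
            (if Bd V E (x' - Pi.single i 1) then Gn V E n (x' - Pi.single i 1) y else 0)))
            atTop (𝓝 (∑ i : Fin d, (0 + 0))) := by
        refine tendsto_finsetSum _ fun i _ => Tendsto.add ?_ ?_
        · by_cases h : Bd V E (x' + Pi.single i 1)
          · simp only [if_pos h]
            exact H _ y h hy
          · simp only [if_neg h]
            exact tendsto_const_nhds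
        · by_cases h : Bd V E (x' - Pi.single i 1)
          · simp only [if_pos h]
            exact H _ y h hy
          · simp only [if_neg h]
            exact tendsto_const_nhds
      simp only [add_zero, Finset.sum_const_zero] at t2
      exact t2.congr fun n => (hg n y).symm
  -- the equation at x₁
  have h4 : Tendsto (fun n : ℕ => lap (G V (zn E n) f) x₁ + ((V x₁ : ℂ) - zn E n) *
      G V (zn E n) f x₁) atTop (𝓝 0) := by
    have t1 : Tendsto (fun n : ℕ => lap (G V (zn E n) f) x₁) atTop
        (𝓝 (∑ i : Fin d, (0 + 0))) := by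
      unfold lap
      exact tendsto_finsetSum _ fun i _ => (hcl _).add (hcl _)
    have t2 := t1.add ((tendsto_zn E (V x₁)).mul (hcl x₁))
    simpa using t2
  have h5 : f x₁ = 0 := by
    refine tendsto_nhds_unique ?_ h4
    refine tendsto_const_nhds.congr fun n => ?_
    exact (G_eq (V := V) (zn_im_ne E n) f x₁).symm
  have h6 : (0 : ℝ) < (f x₁).re := by
    rw [hfx, Complex.re_sum]
    refine Finset.sum_pos' (fun i _ => ?_) ⟨i₀, Finset.mem_univ _, ?_⟩
    · rw [Complex.add_re]
      refine add_nonneg ?_ ?_ <;> split_ifs <;> simp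
    · rw [Complex.add_re]
      rcases hxx with h | h
      · refine add_pos_of_pos_of_nonneg ?_ ?_
        · rw [if_pos ⟨h ▸ hx₁, h⟩]
          simp
        · split_ifs <;> simp
      · refine add_pos_of_nonneg_of_pos ?_ ?_
        · split_ifs <;> simp
        · rw [if_pos ⟨h ▸ hx₁, h⟩]
          simp
  rw [h5] at h6
  simp at h6

end Pool.Agent.AEN.H44
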